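import Mathlib
import Pool.Agent.H1.Orlicz

open Filter Topology

theorem Pool.Agent.Results.MP_85199e_an.Divergent.result :
    ∃ a b : ℕ → ℝ,
      (∀ ε : ℝ, 0 < ε → Summable (fun n : ℕ => |a n| ^ (2 + ε) + |b n| ^ (2 + ε))) ∧
      ∀ x : ℝ, ¬ ∃ L : ℝ, Tendsto (fun N : ℕ => ∑ n ∈ Finset.Icc 1 N,
        (a n * Real.cos (n * x) + b n * Real.sin (n * x))) atTop (𝓝 L) :=
  ⟨Pool.Agent.H1.Orlicz.aa, Pool.Agent.H1.Orlicz.bb, Pool.Agent.H1.Orlicz.summ,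
    Pool.Agent.H1.Orlicz.diverges⟩
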